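import Mathlib
import Pool.Agent.H64.W.SizeK
import Pool.Agent.H81.W.EmH

set_option autoImplicit false
set_option linter.unusedSectionVars false
open Finset

/-! # The tile at the target is not near a row with a string

`NearA D K x y` : the tile `(x, y)` is within `K` of the foot `(x', a x')` of a column of the window, or it is the
tile at the right end of the ceiling. With the numbers `NumS` of helper64 the label of such a tile is not in the row
and not in the string (`em_R`) and not in the layers (`em_B`). `near_emH` : the tile `emH` of helper81.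
`emH_R`, `emH_B` : the fields `emR`, `emB` of `SlitEnv`. -/

namespace Pool.Agent.H24.W

open Pool.Agent.H33.Q1
open Pool.Agent.H69.M6b (lbt)
open Pool.Agent.H54.W (CD Win HWin)
open Pool.Agent.H20.W (Th)
open Pool.Agent.H85.W (BP pq)
open Pool.Agent.H30.W (RZ)
open Pool.Agent.H30.W
open Pool.Agent.H64.W (NumS)
open Pool.Agent.H81.W (DH emH emT_near wa_row)

variable {D : HWin} {S : Slit D} {B : Finset (ℤ × ℤ)} {L K x y : ℤ}

/-- **A tile near the foot of a column** or at the right end of the ceiling. -/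
def NearA (D : HWin) (K x y : ℤ) : Prop :=
  (∃ x', D.p ≤ x' ∧ x' < D.q ∧ |x - x'| ≤ K ∧ |y - D.a x'| ≤ K) ∨ (x = D.q - 1 ∧ y = D.w - 1)

/-- such a tile is not within `r` of the height of the row -/
lemma NearA.row (h : NearA D K x y) (hK : K ≤ 8) (N : NumS S L) :
    ¬ (S.y0 - S.r ≤ y ∧ y ≤ S.y0 + S.r) := by
  rintro ⟨g1, g2⟩
  rcases h with ⟨x', h1, h2, h3, h4⟩ | ⟨-, h2⟩
  · have h5 := N.lev x' h1 h2
    rw [abs_le] at h4
    omega
  · have h5 := N.top
    omega

/-- such a tile is not in the column of the string, above the row -/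
lemma NearA.col (h : NearA D K x y) (hK : K ≤ 8) (N : NumS S L) : ¬ (x = S.xs ∧ S.y0 < y) := by
  rintro ⟨rfl, g2⟩
  have h6 := N.L16
  have r2 := S.r2
  rcases h with ⟨x', h1, h2, h3, h4⟩ | ⟨h1, -⟩
  · rw [abs_le] at h3 h4
    have h5 := (N.near x' (by omega) (by omega)).2.2
    omega
  · have h5 := (N.near (S.xs + L) (by omega) (by omega)).2.1
    omega

/-- **Not in the row and not in the string.** -/
theorem em_R (h : NearA D K x y) (hK : K ≤ 8) (N : NumS S L) :
    lbt x y ∉ RZ S.N S.M S.x1 S.y0 S.c0 := by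
  rw [mem_RZs]
  have r2 := S.r2
  rintro (h1 | h1)
  · exact h.row hK N ⟨by omega, by omega⟩
  · exact h.col hK N ⟨h1.1, h1.2.1⟩

/-- **Not in the layers.** -/
theorem em_B (h : NearA D K x y) (hK : K ≤ 8) (N : NumS S L) : lbt x y ∉ ELz S B ∪ EUz S B := by
  have r2 := S.r2
  rw [mem_union, mem_ELz, mem_EUz]
  rintro (h1 | h1)
  · exact h.row hK N ⟨by omega, by omega⟩
  · exact h.row hK N ⟨by omega, by omega⟩

/-! ### The instance -/

variable {C : CD} {c0 : Bool}

/-- **The tile `emH` is near the foot of a column.** -/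
theorem near_emH (θ : Th C c0) (P : BP C c0) (τ : ℤ → ℤ) (cr : ℤ → Bool) :
    NearA (DH P cr) 2 (emH θ P τ).1 (emH θ P τ).2 := by
  have hp := P.n0
  have hn := P.hn
  have hH := C.H0
  unfold emH
  simp only
  rcases emT_near θ P (Win.rt τ) with ⟨h1, h2⟩ | ⟨h0, h1, h2, h3, h4, h5⟩
  · right
    rw [h2]
    exact ⟨rfl, rfl⟩
  · left
    -- a row `y'` of the coarse row `Y'` with `cX = A Y'`
    have key : ∃ Y' j, 0 ≤ Y' ∧ Y' < C.H ∧ 0 ≤ j ∧ j < P.n ∧ C.cX (pq θ).1 = C.A Y' ∧
        P.n * (pq θ).1 - 1 ≤ P.n * Y' + j ∧ P.n * Y' + j ≤ P.n * (pq θ).1 := by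
      have e0 : ∀ Y, P.n * (Y - 1) + (P.n - 1) = P.n * Y - 1 := fun Y => by ring
      unfold CD.cX
      by_cases c1 : (pq θ).1 = 0
      · rw [if_pos c1]
        exact ⟨0, 0, le_rfl, hH, le_rfl, by omega, rfl, by rw [c1]; omega, by rw [c1]; omega⟩
      · rw [if_neg c1]
        by_cases c2 : (pq θ).1 = C.H
        · rw [if_pos c2]
          refine ⟨C.H - 1, P.n - 1, by omega, by omega, by omega, by omega, rfl, ?_, ?_⟩
          · rw [e0, c2]
          · rw [e0, c2]; omega
        · rw [if_neg c2]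
          rcases le_total (C.A ((pq θ).1 - 1)) (C.A (pq θ).1) with c3 | c3
          · refine ⟨(pq θ).1 - 1, P.n - 1, by omega, by omega, by omega, by omega, min_eq_left c3,
              ?_, ?_⟩
            · rw [e0]
            · rw [e0]; omega
          · exact ⟨(pq θ).1, 0, by omega, by omega, le_rfl, by omega, min_eq_right c3, by omega,
              by omega⟩
    obtain ⟨Y', j, i0, i1, j0, j1, e, k1, k2⟩ := key
    have hwa := wa_row (C := C) hp (Y := Y') j0 j1
    have hq := Pool.Agent.H54.W.CD.mul_lt (n := P.n) hp i1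
    have hq0 : 0 ≤ P.n * Y' := mul_nonneg hp.le i0
    refine ⟨-(P.n * Y' + j) - 1, show -(P.n * C.H) ≤ _ by omega, show _ < (0 : ℤ) by omega, ?_, ?_⟩
    · rw [abs_le]; omega
    · show |_ - C.wa P.n (-(-(P.n * Y' + j) - 1) - 1)| ≤ 2
      rw [show -(-(P.n * Y' + j) - 1) - 1 = P.n * Y' + j by ring, abs_le]
      rw [e] at h2 h3
      rcases hwa with ⟨-, e2⟩ | ⟨-, e2⟩ <;> omega

/-- **The field `emR`.** -/
theorem emH_R (θ : Th C c0) (P : BP C c0) {cr : ℤ → Bool} {S : Slit (DH P cr)} (N : NumS S L)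
    (τ : ℤ → ℤ) : lt (emH θ P τ) ∉ RZ S.N S.M S.x1 S.y0 S.c0 :=
  em_R (near_emH θ P τ cr) (by norm_num) N

/-- **The field `emB`.** -/
theorem emH_B (θ : Th C c0) (P : BP C c0) {cr : ℤ → Bool} {S : Slit (DH P cr)} (N : NumS S L)
    (τ : ℤ → ℤ) (B : Finset (ℤ × ℤ)) : lt (emH θ P τ) ∉ ELz S B ∪ EUz S B :=
  em_B (near_emH θ P τ cr) (by norm_num) N

end Pool.Agent.H24.W
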