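import Mathlib
import Pool.Agent.H58.W.NearS
import Pool.Agent.H65.W.Bad
import Pool.Agent.H87.W.Corr
import Pool.Agent.H72.W.WideBox

set_option autoImplicit false
open Finset

/-! # Route W, module E6: the recursion over the scales

Input: `JB c` (junction bound, W-C), `RS C0 C c'` (one arm, W-D), `Landing` (E3). Output: `LocB`.

One step: the box `U_j = [-L r_j, L r_j) × [-r_j, r_j)`, `r_j = m M 4^j`, contains the wide part `Wb b L` of
a junction box with half height `b.H = r_j / 2`, which contains `U_(j-1)`. `A4` in `U_j` implies `A4` in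
`Wb` and `A4` in `U_(j-1)`; by the landing lemma either the chunk is pivotal for all marks in four
separated windows (`JB`) or a bad event happens outside `U_(j-1)`, which is independent of `U_(j-1)`. -/

namespace Pool.Agent.H24.W

open Pool.Agent.H75.Perc hiding WL CT hh PB
open Pool.Agent.H75.TwoArm Pool.Agent.H75.Four Pool.Agent.H69.Q1 Pool.Agent.Q1
open Pool.Agent.H33.Q1
open Pool.Agent.Q1.M4 (Cell)
open Pool.Agent.H58.W Pool.Agent.H50.W Pool.Agent.H6.W Pool.Agent.H65.W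
open Pool.Agent.H87.Corr (CrL band band_path mem_band tt_sh1)
open Pool.Agent.H41.W (A4 A4_mono A4_inter A4_congr)
open Pool.Agent.H72.W (Wb mem_Wb)

lemma Wb_sub {b : JBox} {L : ℕ} : Wb b L ⊆ b.Q := fun _ hc => (mem_Wb.1 hc).1

/-- labels of the wide part -/
noncomputable def WE (b : JBox) (L h : ℕ) : Finset (ℤ × ℤ) := TL (Wb b L) (2 * (h : ℤ))

/-- start of the left corridor -/
def lα (L H h : ℕ) : ℤ := -((L * H + 2 : ℤ) * h)

/-- end of the left corridor -/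
def lβ (L H h : ℕ) : ℤ := -((((L : ℤ) - 1) * H - 1) * (2 * h))

/-- bad landing: three arms at a window, or a crossing of a corridor -/
def Bad (b : JBox) (L g h : ℕ) (ω : Finset (ℤ × ℤ)) : Prop :=
  (BadO b.H b.K L g h (WE b L h) (ω ∩ WE b L h) ∨ BadD b.H b.K L g h (WE b L h) ω) ∨
  (CorO b.H L h (WE b L h) ω ∨ CorD b.H L h (WE b L h) ω) ∨
  CrL (lα L b.H h) (lβ L b.H h) (ω ∩ b.B h) ∨
  CrL (lα L b.H h) (lβ L b.H h) (du (b.B h) ω)

/-- **Landing** = output of E3. -/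
def Landing : Prop :=
  ∀ (b : JBox) (δ σ : ℝ) (L g h : ℕ) (ω : Finset (ℤ × ℤ)), b.Ok δ σ → σ ≤ 1 → 11 ≤ g →
    δ ≤ 1 / (8 * g : ℕ) → δ ≤ 1 / (8 * L : ℕ) → 4 ≤ L → 0 < h → ω ⊆ b.B h →
    A4 (WE b L h) (b.Pl h) ω →
    (∃ (w : Bool) (t1 t2 t3 t4 : ℕ), (t1 + 2 ≤ t2 ∧ t2 + 2 ≤ t3 ∧ t3 + 2 ≤ t4 ∧
      t4 < 4 * L * (2 * g)) ∧ b.AllPiv h L (2 * g) w t1 t2 t3 t4 ω) ∨ Bad b L g h ω

section geo

variable {b : JBox} {δ σ : ℝ} {L g h s : ℕ}

/-- cells of the inner box -/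
noncomputable def Vc (L s : ℕ) : Finset Cell := RC (-((L * s : ℕ) : ℤ)) ((L * s : ℕ) : ℤ) (-s) s

lemma mem_Vc {c : Cell} : c ∈ Vc L s ↔
    (-((L * s : ℕ) : ℤ) ≤ c.1 ∧ c.1 < ((L * s : ℕ) : ℤ)) ∧ (-(s : ℤ) ≤ c.2 ∧ c.2 < s) := by
  unfold Vc
  exact Pool.Agent.H65.W.mem_RC

/-- hypotheses on the step -/
structure St (b : JBox) (δ σ : ℝ) (L s : ℕ) : Prop where
  ok : b.Ok δ σ
  hH : b.H = 2 * s
  dv : b.M ∣ s
  hL : 4 ≤ L
  dL : δ ≤ 1 / (8 * L : ℕ)
  hσ : σ ≤ 1 / 2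

namespace St

variable (S : St b δ σ L s)

include S

lemma L0 : 0 < 8 * L := by have := S.hL; omega

lemma d4 : δ ≤ 1 / (4 : ℕ) := by
  refine S.dL.trans (one_div_le_one_div_of_le (by norm_num) ?_)
  exact_mod_cast (by have := S.hL; omega : 4 ≤ 8 * L)

lemma Hge : 8 * L ≤ b.H ∧ 8 * L * b.K ≤ b.H ∧ 8 * L * b.M ≤ b.H :=
  Ok.H_ge S.ok S.L0 S.dL

lemma K_le : b.K ≤ b.H := by
  obtain ⟨-, h1, -⟩ := S.Hge
  have := S.L0
  nlinarith

lemma M_le : b.M ≤ s := by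
  obtain ⟨-, -, h1⟩ := S.Hge
  have h2 := S.hH
  have h3 := S.hL
  nlinarith

lemma X_ge : L * b.H ≤ b.X := by
  have h1 := S.ok.X_ge
  have h2 : (0 : ℝ) < (8 * L : ℕ) := by exact_mod_cast S.L0
  have h3 : δ * b.X ≤ 1 / (8 * L : ℕ) * b.X := mul_le_mul_of_nonneg_right S.dL (Nat.cast_nonneg _)
  have h4 : ((8 * L : ℕ) : ℝ) * (1 / (8 * L : ℕ) * b.X) = b.X := by field_simp
  have h5 : ((8 * L : ℕ) : ℝ) * b.H ≤ b.X := by
    rw [← h4]
    exact mul_le_mul_of_nonneg_left (h1.trans h3) h2.le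
  have h6 : 8 * L * b.H ≤ b.X := by exact_mod_cast h5
  nlinarith [Nat.zero_le (L * b.H)]

lemma Vc_sub : Vc L s ⊆ Wb b L := by
  intro c hc
  rw [mem_Vc] at hc
  have h1 := S.hH
  have h2 := S.X_ge
  have h3 : (L * s : ℕ) ≤ L * b.H := by rw [h1]; nlinarith [Nat.zero_le (L * s)]
  rw [mem_Wb]
  refine ⟨?_, ?_, ?_⟩
  · unfold JBox.Q
    refine mem_union_left _ (Pool.Agent.H65.W.mem_RC.2 ?_)
    omega
  · have : ((L * s : ℕ) : ℤ) ≤ ((L * b.H : ℕ) : ℤ) := by exact_mod_cast h3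
    push_cast at this hc ⊢
    omega
  · have : ((L * s : ℕ) : ℤ) ≤ ((L * b.H : ℕ) : ℤ) := by exact_mod_cast h3
    push_cast at this hc ⊢
    omega

lemma Wb_sub_big : Wb b L ⊆ Vc L (4 * s) := by
  have h1 := S.K_le
  have h2 := S.hH
  intro c hc
  obtain ⟨h3, h4, h5⟩ := mem_Wb.1 hc
  have h6 := (Q_bounds S.ok h3).2
  rw [mem_Vc]
  have h7 : ((L * (4 * s) : ℕ) : ℤ) = 2 * ((L * b.H : ℕ) : ℤ) := by rw [h2]; push_cast; ring
  rw [h7]
  have h8 : (0 : ℤ) ≤ ((L * b.H : ℕ) : ℤ) := Int.natCast_nonneg _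
  push_cast at h8 ⊢
  refine ⟨⟨by linarith, by linarith⟩, by omega, by omega⟩

/-- plates are thinner than the inner box -/
lemma thick {c : Cell} (hc : -(b.X : ℤ) ≤ c.1) (hc' : c.1 < 0) :
    (b.τ : ℤ) + ((0 - c.1 - 1) / (b.M : ℤ)).toNat ≤ s := by
  have h1 := thick_le S.ok hc hc'
  have h2 := S.M_le
  omega

lemma Pc_sub : b.Pc ⊆ Vc L s := by
  intro c hc
  unfold JBox.Pc at hc
  obtain ⟨i, hi, hc'⟩ := mem_biUnion.1 hc
  rw [mem_range] at hi
  rw [Pool.Agent.H65.W.mem_RC] at hc'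
  obtain ⟨⟨a1, a2⟩, a3⟩ := hc'
  have hM : (0 : ℤ) < b.M := by exact_mod_cast S.ok.M0
  have e1 : (0 : ℤ) ≤ i * b.M := by positivity
  -- length of the chunk
  have h1 : b.m * b.M ≤ s := by
    have h2 := S.ok.len
    have h3 : σ * b.H ≤ 1 / 2 * b.H := mul_le_mul_of_nonneg_right S.hσ (Nat.cast_nonneg _)
    have h4 : (b.H : ℝ) = 2 * s := by rw [S.hH]; push_cast; ring
    have h5 : (b.m * b.M : ℝ) ≤ s := by rw [h2]; linarith
    exact_mod_cast h5
  have h2 : ((i : ℤ) + 1) * b.M ≤ b.m * b.M := mul_le_mul_of_nonneg_right (by omega) hM.le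
  have h3 : ((b.m * b.M : ℕ) : ℤ) ≤ s := by exact_mod_cast h1
  push_cast at h3
  have h4 : (s : ℤ) ≤ ((L * s : ℕ) : ℤ) := by
    have := S.hL
    have : s ≤ L * s := by nlinarith [Nat.zero_le s]
    exact_mod_cast this
  have h5 := S.X_ge
  have h6 : ((L * s : ℕ) : ℤ) ≤ b.X := by
    have : L * s ≤ b.X := by
      refine le_trans ?_ h5
      rw [S.hH]
      nlinarith [Nat.zero_le (L * s)]
    exact_mod_cast this
  have h7 := S.thick (c := c) (by linarith) (by linarith)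
  have h8 : (0 - c.1 - 1) / (b.M : ℤ) = i := by
    rw [Int.ediv_eq_iff_of_pos hM]
    constructor <;> linarith
  rw [h8, Int.toNat_natCast] at h7
  rw [mem_Vc]
  refine ⟨⟨by linarith, by linarith⟩, by linarith, by linarith⟩

/-- no plate meets both sides -/
lemma sep (hh : 0 < h) : Sep (bk (2 * (h : ℤ)) (chn 0 b.M b.τ))
    (b.B h \ TL (Vc L s) (2 * (h : ℤ))) (TL (Vc L s) (2 * (h : ℤ))) := by
  have hn : (0 : ℤ) < 2 * (h : ℤ) := by positivity
  intro l hl l' hl' heq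
  obtain ⟨h1, h2⟩ := mem_sdiff.1 hl
  rcases bk_eq_iff.1 heq with h3 | ⟨h3, h4⟩
  · exact h2 (h3 ▸ hl')
  · apply h2
    have hM : (0 : ℤ) < b.M := by exact_mod_cast S.ok.M0
    have k1 := (mem_TL hn).1 h1
    have k2 := ((mem_TL hn).1 hl').2
    refine (mem_TL hn).2 ⟨k1.1, ?_⟩
    obtain ⟨q1, q2⟩ := Q_bounds S.ok k1.2
    generalize ct (2 * (h : ℤ)) (tt l) = c at *
    generalize ct (2 * (h : ℤ)) (tt l') = c' at *
    have hc0 : c.1 < 0 := by
      by_contra hcon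
      apply h3
      unfold chn
      rw [if_neg hcon]
    have hc0' : c'.1 < 0 := by
      by_contra hcon
      apply h3
      rw [h4]
      unfold chn
      rw [if_neg hcon]
    unfold chn at h3 h4
    rw [if_pos hc0] at h3 h4
    rw [if_pos hc0'] at h4
    simp only at h3 h4
    have hth := S.thick q1.1 hc0
    set i := ((0 - c.1 - 1) / (b.M : ℤ)).toNat with hi
    set i' := ((0 - c'.1 - 1) / (b.M : ℤ)).toNat with hi'
    by_cases k3 : -((b.τ : ℤ) + i) ≤ c.2 ∧ c.2 < (b.τ : ℤ) + i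
    · rw [if_pos k3] at h4
      by_cases k4 : -((b.τ : ℤ) + i') ≤ c'.2 ∧ c'.2 < (b.τ : ℤ) + i'
      · rw [if_pos k4] at h4
        have h5 : i = i' := by simpa using h4
        rw [mem_Vc] at k2 ⊢
        refine ⟨⟨?_, ?_⟩, by omega, by omega⟩
        · -- the plate `i` is contained in the columns of the inner box
          obtain ⟨q, hq⟩ := S.dv
          have e0 : 0 ≤ (0 - c.1 - 1) / (b.M : ℤ) := Int.ediv_nonneg (by omega) hM.le
          have e0' : 0 ≤ (0 - c'.1 - 1) / (b.M : ℤ) := Int.ediv_nonneg (by omega) hM.le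
          have e1 : ((0 - c.1 - 1) / (b.M : ℤ)) = (0 - c'.1 - 1) / (b.M : ℤ) := by omega
          have e2 : ((L * s : ℕ) : ℤ) = (L * q : ℤ) * b.M := by rw [hq]; push_cast; ring
          have e3 : (0 - c'.1 - 1) / (b.M : ℤ) < L * q := by
            rw [Int.ediv_lt_iff_lt_mul hM, ← e2]
            linarith [k2.1.1]
          have e4 : 0 - c.1 - 1 < ((0 - c.1 - 1) / (b.M : ℤ) + 1) * b.M :=
            Int.lt_ediv_add_one_mul_self _ hM
          have e5 : ((0 - c.1 - 1) / (b.M : ℤ) + 1) * b.M ≤ (L * q : ℤ) * b.M :=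
            mul_le_mul_of_nonneg_right (by omega) hM.le
          rw [e2]
          linarith
        · have : (0 : ℤ) ≤ ((L * s : ℕ) : ℤ) := Int.natCast_nonneg _
          omega
      · rw [if_neg k4] at h4
        simp at h4
    · rw [if_neg k3] at h3
      exact absurd rfl h3

end St

end geo

end Pool.Agent.H24.W
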