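import Mathlib
import Pool.Agent.H24.W.Rec

set_option autoImplicit false
open Finset

/-! # Route W, module E6: the bad event is read outside the inner box; one step of the recursion -/

namespace Pool.Agent.H24.W

open Pool.Agent.H75.Perc hiding WL CT hh PB
open Pool.Agent.H75.TwoArm Pool.Agent.H75.Four Pool.Agent.H69.Q1 Pool.Agent.Q1
open Pool.Agent.H33.Q1
open Pool.Agent.Q1.M4 (Cell)
open Pool.Agent.H58.W Pool.Agent.H50.W Pool.Agent.H6.W Pool.Agent.H65.W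
open Pool.Agent.H87.Corr (CrL band band_path mem_band tt_sh1)
open Pool.Agent.H72.W (Wb mem_Wb)
open Pool.Agent.H41.W (A4 A4_mono A4_inter A4_congr)

variable {b : JBox} {δ σ : ℝ} {L g h s : ℕ}

lemma TL_sub {n : ℤ} (hn : 0 < n) {U V : Finset Cell} (h : U ⊆ V) : TL U n ⊆ TL V n := by
  intro l hl
  rw [mem_TL hn] at hl ⊢
  exact ⟨hl.1, h hl.2⟩

lemma WE_sub (hh : 0 < h) : WE b L h ⊆ b.B h := TL_sub (by positivity) Wb_sub

/-- labels of the inner box -/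
noncomputable def Vl (L s h : ℕ) : Finset (ℤ × ℤ) := TL (Vc L s) (2 * (h : ℤ))

/-- the outer labels -/
noncomputable def Fo (b : JBox) (L s h : ℕ) : Finset (ℤ × ℤ) := b.B h \ Vl L s h

lemma Fo_sub : Fo b L s h ⊆ b.B h := sdiff_subset

lemma Vl_bd (hh : 0 < h) {l : ℤ × ℤ} (hl : l ∈ Vl L s h) :
    l.1 + l.2 < 4 * (h * ((L : ℤ) * s)) ∧ |l.2 - l.1| < 4 * (h * s : ℤ) ∧
      -(2 * (h * ((L : ℤ) * s))) ≤ (tt l).1 := by
  obtain ⟨c, hc, h0, ⟨h1, h2⟩, h3, h4⟩ := tile_of hh hl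
  rw [mem_Vc] at hc
  obtain ⟨⟨a1, a2⟩, a3, a4⟩ := hc
  have hhp : (1 : ℤ) ≤ h := by exact_mod_cast hh
  have hn : (0 : ℤ) < 2 * (h : ℤ) := by positivity
  push_cast at a1 a2
  have e1 : (h : ℤ) * (c.1 + 1) ≤ h * (L * s) := mul_le_mul_of_nonneg_left (by omega) (by omega)
  have e2 : (h : ℤ) * (c.2 + 1) ≤ h * s := mul_le_mul_of_nonneg_left (by omega) (by omega)
  have e3 : (h : ℤ) * (-(s : ℤ)) ≤ h * c.2 := mul_le_mul_of_nonneg_left a3 (by omega)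
  have e4 : (h : ℤ) * (-((L : ℤ) * s)) ≤ h * c.1 := mul_le_mul_of_nonneg_left (by linarith) (by omega)
  refine ⟨by nlinarith, ?_, ?_⟩
  · rw [abs_lt]
    constructor <;> nlinarith
  · have h5 := ((ct_eq hn).1 h0).1.1
    nlinarith

lemma Hi_sub_Fo (S : St b δ σ L s) (hh : 0 < h) : Hi b.H h (WE b L h) ⊆ Fo b L s h := by
  intro l hl
  obtain ⟨h1, h2⟩ := mem_Hi.1 hl
  refine mem_sdiff.2 ⟨WE_sub hh h1, fun h3 => ?_⟩
  have h4 := (Vl_bd hh h3).2.1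
  rw [S.hH] at h2
  push_cast at h2
  have e : 2 * ((h : ℤ) * (2 * s)) = 4 * (h * s) := by ring
  rw [e] at h2
  omega

lemma Rt_sub_Fo (S : St b δ σ L s) (hh : 0 < h) : Rt b.H L h (WE b L h) ⊆ Fo b L s h := by
  intro l hl
  obtain ⟨h1, h2⟩ := mem_Rt.1 hl
  refine mem_sdiff.2 ⟨WE_sub hh h1, fun h3 => ?_⟩
  have h4 := (Vl_bd hh h3).1
  rw [S.hH] at h2
  push_cast at h2
  have e : 2 * ((h : ℤ) * (L * (2 * s))) = 4 * (h * (L * s)) := by ring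
  rw [e] at h2
  omega

lemma lα_lt (S : St b δ σ L s) (hh : 0 < h) {l : ℤ × ℤ} (hl : (tt l).1 < lα L b.H h) :
    l ∉ Vl L s h := by
  intro h1
  have h2 := (Vl_bd hh h1).2.2
  unfold lα at hl
  rw [S.hH] at hl
  push_cast at hl
  have hhp : (1 : ℤ) ≤ h := by exact_mod_cast hh
  nlinarith

lemma lβ_lt (S : St b δ σ L s) (hh : 0 < h) : lβ L b.H h < lα L b.H h := by
  obtain ⟨h1, -, -⟩ := S.Hge
  have h2 := S.hL
  unfold lα lβ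
  have hhp : (1 : ℤ) ≤ h := by exact_mod_cast hh
  have h3 : (4 : ℤ) ≤ L := by exact_mod_cast h2
  have h4 : (32 : ℤ) ≤ b.H := by exact_mod_cast (by omega : 32 ≤ b.H)
  have h5 : (0 : ℤ) < ((L : ℤ) - 2) * b.H - 4 := by nlinarith
  nlinarith

/-- the bad event as a function of the outer labels -/
def BadF (b : JBox) (L g h : ℕ) (F η : Finset (ℤ × ℤ)) : Prop :=
  (BadO b.H b.K L g h (WE b L h) (η ∩ WE b L h) ∨ BadD b.H b.K L g h (WE b L h) η) ∨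
  (CorO b.H L h (WE b L h) η ∨ CorD b.H L h (WE b L h) η) ∨
  CrL (lα L b.H h) (lβ L b.H h) (η ∩ b.B h) ∨
  CrL (lα L b.H h) (lβ L b.H h) (du F η)

lemma CrL_of_band {α β : ℤ} (hβ : β < α) {κ κ' : Finset (ℤ × ℤ)} (h : CrL α β κ)
    (hs : band α β κ ⊆ κ') : CrL α β κ' := by
  obtain ⟨u, v, h1, h2, h3⟩ := h
  obtain ⟨m, m', k1, k2, k3⟩ := band_path hβ h1 h2 h3
  exact ⟨m, m', k3.mono hs, k1.ge, k2.le⟩

/-- the bad event is read outside the inner box -/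
lemma bad_read (S : St b δ σ L s) (hh : 0 < h) {ω : Finset (ℤ × ℤ)} (hω : ω ⊆ b.B h)
    (hbad : Bad b L g h ω) : BadF b L g h (Fo b L s h) (ω ∩ Fo b L s h) := by
  unfold Bad at hbad
  unfold BadF
  rcases hbad with (h1 | h1) | (h1 | h1) | h1 | h1
  · refine Or.inl (Or.inl ?_)
    rw [BadO_inter (Hi_sub_Fo S hh) inter_subset_right] at h1
    rw [inter_right_comm]
    exact h1
  · exact Or.inl (Or.inr ((BadD_inter (Hi_sub_Fo S hh)).1 h1))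
  · exact Or.inr (Or.inl (Or.inl ((CorO_inter (Rt_sub_Fo S hh)).1 h1)))
  · exact Or.inr (Or.inl (Or.inr ((CorD_inter (Rt_sub_Fo S hh)).1 h1)))
  · refine Or.inr (Or.inr (Or.inl (CrL_of_band (lβ_lt S hh) h1 ?_)))
    intro l hl
    obtain ⟨h2, h3, h4⟩ := mem_band.1 hl
    obtain ⟨h5, h6⟩ := mem_inter.1 h2
    exact mem_inter.2 ⟨mem_inter.2 ⟨h5, mem_sdiff.2 ⟨h6, lα_lt S hh h4⟩⟩, h6⟩
  · refine Or.inr (Or.inr (Or.inr (CrL_of_band (lβ_lt S hh) h1 ?_)))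
    intro l hl
    obtain ⟨h2, h3, h4⟩ := mem_band.1 hl
    obtain ⟨e, h5, h6, rfl⟩ := mem_du'.1 h2
    rw [tt_sh1] at h4
    simp only at h4
    refine mem_du'.2 ⟨e, mem_sdiff.2 ⟨h5, lα_lt S hh (by omega)⟩, fun h7 => h6 (mem_inter.1 h7).1, rfl⟩

lemma bad_of_badF (S : St b δ σ L s) (hh : 0 < h) {ω : Finset (ℤ × ℤ)}
    (hbad : BadF b L g h (Fo b L s h) (ω ∩ Fo b L s h)) : Bad b L g h ω := by
  unfold BadF at hbad
  unfold Bad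
  rcases hbad with (h1 | h1) | (h1 | h1) | h1 | h1
  · refine Or.inl (Or.inl ?_)
    rw [BadO_inter (Hi_sub_Fo S hh) inter_subset_right, inter_right_comm]
    exact h1
  · exact Or.inl (Or.inr ((BadD_inter (Hi_sub_Fo S hh)).2 h1))
  · exact Or.inr (Or.inl (Or.inl ((CorO_inter (Rt_sub_Fo S hh)).2 h1)))
  · exact Or.inr (Or.inl (Or.inr ((CorD_inter (Rt_sub_Fo S hh)).2 h1)))
  · exact Or.inr (Or.inr (Or.inl (h1.mono (inter_subset_inter_right inter_subset_left) le_rfl le_rfl)))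
  · refine Or.inr (Or.inr (Or.inr (h1.mono ?_ le_rfl le_rfl)))
    intro l hl
    obtain ⟨e, h5, h6, rfl⟩ := mem_du'.1 hl
    exact mem_du'.2 ⟨e, Fo_sub h5, fun h7 => h6 (mem_inter.2 ⟨h7, h5⟩), rfl⟩

lemma PB_badF (S : St b δ σ L s) (hh : 0 < h) :
    PB (Fo b L s h) (bk (2 * (h : ℤ)) (chn 0 b.M b.τ)) (BadF b L g h (Fo b L s h)) ≤
      b.PJ h (Bad b L g h) := by
  unfold JBox.PJ
  rw [← PB_restrict Fo_sub]
  exact PB_mono fun ω _ h1 => bad_of_badF S hh h1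

/-! ### One step -/

/-- the quadruples of windows -/
noncomputable def Tg (L g : ℕ) : Finset (Bool × ℕ × ℕ × ℕ × ℕ) :=
  (univ ×ˢ range (4 * L * (2 * g)) ×ˢ range (4 * L * (2 * g)) ×ˢ range (4 * L * (2 * g)) ×ˢ
    range (4 * L * (2 * g))).filter fun t =>
      t.2.1 + 2 ≤ t.2.2.1 ∧ t.2.2.1 + 2 ≤ t.2.2.2.1 ∧ t.2.2.2.1 + 2 ≤ t.2.2.2.2

lemma mem_Tg {L g : ℕ} {w : Bool} {t1 t2 t3 t4 : ℕ} (h1 : t1 + 2 ≤ t2) (h2 : t2 + 2 ≤ t3)
    (h3 : t3 + 2 ≤ t4) (h4 : t4 < 4 * L * (2 * g)) : (w, t1, t2, t3, t4) ∈ Tg L g := by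
  unfold Tg
  simp only [mem_filter, mem_product, mem_univ, mem_range, true_and]
  omega

lemma of_mem_Tg {L g : ℕ} {t : Bool × ℕ × ℕ × ℕ × ℕ} (h : t ∈ Tg L g) :
    t.2.1 + 2 ≤ t.2.2.1 ∧ t.2.2.1 + 2 ≤ t.2.2.2.1 ∧ t.2.2.2.1 + 2 ≤ t.2.2.2.2 ∧
      t.2.2.2.2 < 4 * L * (2 * g) := by
  unfold Tg at h
  simp only [mem_filter, mem_product, mem_univ, mem_range, true_and] at h
  omega

lemma Pl_eq (b : JBox) (h : ℕ) : b.Pl h = TL (Chd.pch b.M b.m b.τ) (2 * (h : ℤ)) := rfl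

lemma aJ_eq (b : JBox) (L s h : ℕ) : aJ (L * s) s b.M b.τ b.m h =
    PB (Vl L s h) (bk (2 * (h : ℤ)) (chn 0 b.M b.τ)) (A4 (Vl L s h) (b.Pl h)) := by
  rw [Pl_eq]
  rfl

/-- one step, abstract form -/
theorem step_abs {γ ι : Type*} [DecidableEq γ] {β : ℤ × ℤ → γ} {U V E B F P : Finset (ℤ × ℤ)}
    (hEU : E ⊆ U) (hVE : V ⊆ E) (hEB : E ⊆ B) (hPV : P ⊆ V) (hFB : F ⊆ B) (hsep : Sep β F V)
    (T : Finset ι) (X : ι → Finset (ℤ × ℤ) → Prop) (Y YF : Finset (ℤ × ℤ) → Prop)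
    (hland : ∀ ω, ω ⊆ B → A4 E P ω → (∃ t ∈ T, X t ω) ∨ Y ω)
    (hread : ∀ ω, ω ⊆ B → Y ω → YF (ω ∩ F)) :
    PB U β (A4 U P) ≤ ∑ t ∈ T, PB B β (X t) + PB F β YF * PB V β (A4 V P) := by
  have h1 : PB U β (A4 U P) ≤ PB U β (fun ω => (fun η => A4 E P η ∧ A4 V P η) (ω ∩ E)) := by
    refine PB_mono fun ω _ h1 => ?_
    refine ⟨A4_inter.2 (A4_mono (hPV.trans hVE) hEU h1), ?_⟩
    rw [A4_congr (show ω ∩ E ∩ V = ω ∩ V by rw [inter_assoc, inter_eq_right.2 hVE])]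
    exact A4_mono hPV (hVE.trans hEU) h1
  rw [PB_restrict hEU β (fun η => A4 E P η ∧ A4 V P η),
    ← PB_restrict hEB β (fun η => A4 E P η ∧ A4 V P η)] at h1
  have h2 : PB B β (fun ω => A4 E P (ω ∩ E) ∧ A4 V P (ω ∩ E)) ≤
      PB B β (fun ω => (∃ t ∈ T, X t ω) ∨ (YF (ω ∩ F) ∧ A4 V P (ω ∩ V))) := by
    refine PB_mono fun ω hω h1 => ?_
    obtain ⟨h2, h3⟩ := h1
    rw [A4_inter] at h2
    rw [A4_congr (show ω ∩ E ∩ V = ω ∩ V by rw [inter_assoc, inter_eq_right.2 hVE])] at h3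
    rcases hland ω hω h2 with h4 | h4
    · exact Or.inl h4
    · exact Or.inr ⟨hread ω hω h4, A4_inter.2 h3⟩
  have h3 := PB_or_le B β (fun ω => ∃ t ∈ T, X t ω) (fun ω => YF (ω ∩ F) ∧ A4 V P (ω ∩ V))
  have h4 := PB_exists_le B β T X
  rw [PB_indep hFB (hVE.trans hEB) hsep YF (A4 V P)] at h3
  linarith

theorem step (hland : Landing) (S : St b δ σ L s) (hg : 11 ≤ g) (hdg : δ ≤ 1 / (8 * g : ℕ))
    (hh : 0 < h) :
    aJ (L * (4 * s)) (4 * s) b.M b.τ b.m h ≤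
      ∑ t ∈ Tg L g, b.PJ h (b.AllPiv h L (2 * g) t.1 t.2.1 t.2.2.1 t.2.2.2.1 t.2.2.2.2) +
        b.PJ h (Bad b L g h) * aJ (L * s) s b.M b.τ b.m h := by
  have hn : (0 : ℤ) < 2 * (h : ℤ) := by positivity
  rw [aJ_eq, aJ_eq]
  have key := step_abs (β := bk (2 * (h : ℤ)) (chn 0 b.M b.τ)) (U := Vl L (4 * s) h)
    (V := Vl L s h) (E := WE b L h) (B := b.B h) (F := Fo b L s h) (P := b.Pl h)
    (TL_sub hn S.Wb_sub_big) (TL_sub hn S.Vc_sub) (WE_sub hh) (TL_sub hn S.Pc_sub) Fo_sub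
    (S.sep hh) (Tg L g)
    (fun t => b.AllPiv h L (2 * g) t.1 t.2.1 t.2.2.1 t.2.2.2.1 t.2.2.2.2) (Bad b L g h)
    (BadF b L g h (Fo b L s h)) (by
      intro ω hω h2
      rcases hland b δ σ L g h ω S.ok (S.hσ.trans (by norm_num)) hg hdg S.dL S.hL hh hω h2 with
        ⟨w, t1, t2, t3, t4, ⟨k1, k2, k3, k4⟩, k5⟩ | hbad
      · exact Or.inl ⟨(w, t1, t2, t3, t4), mem_Tg k1 k2 k3 k4, k5⟩
      · exact Or.inr hbad) (fun ω hω => bad_read S hh hω)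
  refine key.trans (add_le_add le_rfl (mul_le_mul_of_nonneg_right ?_ (PB_nonneg _ _ _)))
  exact PB_badF S hh

end Pool.Agent.H24.W
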