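import Mathlib
import Pool.Agent.H24.W.Rec2
import Pool.Agent.H89.W.JOk

set_option autoImplicit false
open Finset

/-! # Route W, module E6: the recursion over the scales, `LocB` -/

namespace Pool.Agent.H24.W

open Pool.Agent.H75.Perc hiding WL CT hh PB
open Pool.Agent.H75.TwoArm Pool.Agent.H75.Four Pool.Agent.H69.Q1 Pool.Agent.Q1
open Pool.Agent.H33.Q1
open Pool.Agent.Q1.M4 (Cell)
open Pool.Agent.H58.W Pool.Agent.H50.W Pool.Agent.H6.W Pool.Agent.H65.W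
open Pool.Agent.H87.Corr (CrL corr_left)
open Pool.Agent.H72.W (Wb mem_Wb)
open Pool.Agent.H41.W (A4)
open Pool.Agent.H89.W (exists_box)

/-- **The bad events have small probability.** -/
theorem bad_bound {C0 : ℕ} {C c' : ℝ} (hc : 0 < c') (hRS : RS C0 C c') {θ : ℝ} (hθ : 0 < θ) :
    ∃ L g : ℕ, 4 ≤ L ∧ 11 ≤ g ∧ ∃ δ0 > (0 : ℝ), ∀ (b : JBox) (δ σ : ℝ), δ ≤ δ0 → b.Ok δ σ →
      ∃ h0 : ℕ, ∀ h : ℕ, h0 ≤ h → b.PJ h (Bad b L g h) ≤ θ := by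
  obtain ⟨Cb, hCb, hbad⟩ := box_bad_le
  obtain ⟨d, hd0, hd1, hcor⟩ := box_cor_le
  obtain ⟨N0, hN0, hcl⟩ := corr_left hc hRS
  obtain ⟨N, hN⟩ := exists_pow_lt_of_lt_one (show 0 < θ / 8 by positivity)
    (show (1 / 2 : ℝ) < 1 by norm_num)
  obtain ⟨n, hn⟩ := exists_pow_lt_of_lt_one (show 0 < θ / 8 by positivity)
    (show (1 - d : ℝ) < 1 by linarith)
  obtain ⟨L, hL⟩ : ∃ L : ℕ, L = (N + 1) * N0 + 22 * n + 4 := ⟨_, rfl⟩
  obtain ⟨g, hg⟩ : ∃ g : ℕ, g = ⌈4 * Cb * L / θ⌉₊ + 11 := ⟨_, rfl⟩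
  obtain ⟨δ1, hδ1, hcl1⟩ := hcl L N (by omega)
  have hgp : (0 : ℝ) < g := by exact_mod_cast (by omega : 0 < g)
  refine ⟨L, g, by omega, by omega, min δ1 (min (1 / (4 * g : ℕ)) (1 / (4 : ℕ))), ?_, ?_⟩
  · refine lt_min hδ1 (lt_min ?_ (by norm_num))
    have : (0 : ℝ) < ((4 * g : ℕ) : ℝ) := by exact_mod_cast (by omega : 0 < 4 * g)
    positivity
  · intro b δ σ hδ hb
    have d1 : δ ≤ δ1 := hδ.trans (min_le_left _ _)
    have d2 : δ ≤ 1 / (4 * g : ℕ) := hδ.trans ((min_le_right _ _).trans (min_le_left _ _))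
    have d3 : δ ≤ 1 / (4 : ℕ) := hδ.trans ((min_le_right _ _).trans (min_le_right _ _))
    obtain ⟨h0, hh0⟩ := hcl1 b δ σ d1 hb
    refine ⟨max h0 1, fun h hh => ?_⟩
    have hh1 : 0 < h := by omega
    have hEB : WE b L h ⊆ b.B h := WE_sub hh1
    obtain ⟨k3, k4⟩ := hh0 h (by omega)
    set β := bk (2 * (h : ℤ)) (chn 0 b.M b.τ) with hβ
    have k1 : PB (b.B h) β (fun ω => BadO b.H b.K L g h (WE b L h) (ω ∩ WE b L h) ∨
        BadD b.H b.K L g h (WE b L h) ω) ≤ θ / 4 := by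
      have e1 := hbad b δ σ (Wb b L) L g h (by omega) (by omega) hh1 hb d2 Wb_sub
      have e2 : Cb * (L / g) ≤ θ / 4 := by
        have e3 : 4 * Cb * L / θ ≤ g := by
          rw [hg]
          push_cast
          linarith [Nat.le_ceil (4 * Cb * L / θ)]
        rw [div_le_iff₀ hθ] at e3
        rw [mul_div_assoc', div_le_iff₀ hgp]
        linarith
      change PB (WE b L h) β (fun ω => BadO b.H b.K L g h (WE b L h) ω ∨
        BadD b.H b.K L g h (WE b L h) ω) ≤ _ at e1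
      rw [← PB_restrict hEB] at e1
      refine le_trans (PB_mono fun ω _ h1 => ?_) (e1.trans e2)
      rcases h1 with h1 | h1
      · exact Or.inl h1
      · exact Or.inr ((BadD_inter Hi_sub).1 h1)
    have k2 : PB (b.B h) β (fun ω => CorO b.H L h (WE b L h) ω ∨ CorD b.H L h (WE b L h) ω) ≤
        θ / 4 := by
      have e1 := hcor b δ σ (Wb b L) L n h hh1 hb d3 Wb_sub (by omega)
      change PB (WE b L h) β (fun ω => CorO b.H L h (WE b L h) ω ∨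
        CorD b.H L h (WE b L h) ω) ≤ _ at e1
      rw [← PB_restrict hEB] at e1
      refine le_trans (PB_mono fun ω _ h1 => ?_) (e1.trans (by linarith))
      rcases h1 with h1 | h1
      · exact Or.inl ((CorO_inter Rt_sub).1 h1)
      · exact Or.inr ((CorD_inter Rt_sub).1 h1)
    have k3' : PB (b.B h) β (fun ω => CrL (lα L b.H h) (lβ L b.H h) (ω ∩ b.B h)) ≤ θ / 8 := by
      refine le_trans (PB_mono fun ω _ h1 => ?_) (k3.trans hN.le)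
      exact h1.mono inter_subset_left le_rfl le_rfl
    have k4' : PB (b.B h) β (fun ω => CrL (lα L b.H h) (lβ L b.H h) (du (b.B h) ω)) ≤ θ / 8 :=
      k4.trans hN.le
    have s1 : b.PJ h (Bad b L g h) ≤ PB (b.B h) β (fun ω => BadO b.H b.K L g h (WE b L h)
        (ω ∩ WE b L h) ∨ BadD b.H b.K L g h (WE b L h) ω) + PB (b.B h) β (fun ω =>
        (CorO b.H L h (WE b L h) ω ∨ CorD b.H L h (WE b L h) ω) ∨
        CrL (lα L b.H h) (lβ L b.H h) (ω ∩ b.B h) ∨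
        CrL (lα L b.H h) (lβ L b.H h) (du (b.B h) ω)) := PB_or_le _ _ _ _
    have s2 : PB (b.B h) β (fun ω =>
        (CorO b.H L h (WE b L h) ω ∨ CorD b.H L h (WE b L h) ω) ∨
        CrL (lα L b.H h) (lβ L b.H h) (ω ∩ b.B h) ∨
        CrL (lα L b.H h) (lβ L b.H h) (du (b.B h) ω)) ≤ PB (b.B h) β (fun ω =>
        CorO b.H L h (WE b L h) ω ∨ CorD b.H L h (WE b L h) ω) + PB (b.B h) β (fun ω =>
        CrL (lα L b.H h) (lβ L b.H h) (ω ∩ b.B h) ∨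
        CrL (lα L b.H h) (lβ L b.H h) (du (b.B h) ω)) := PB_or_le _ _ _ _
    have s3 : PB (b.B h) β (fun ω => CrL (lα L b.H h) (lβ L b.H h) (ω ∩ b.B h) ∨
        CrL (lα L b.H h) (lβ L b.H h) (du (b.B h) ω)) ≤ PB (b.B h) β (fun ω =>
        CrL (lα L b.H h) (lβ L b.H h) (ω ∩ b.B h)) + PB (b.B h) β (fun ω =>
        CrL (lα L b.H h) (lβ L b.H h) (du (b.B h) ω)) := PB_or_le _ _ _ _
    linarith

lemma common {ι : Type*} (T : Finset ι) {P : ι → ℕ → Prop}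
    (h : ∀ t ∈ T, ∃ h0 : ℕ, ∀ h, h0 ≤ h → P t h) : ∃ h0 : ℕ, ∀ h, h0 ≤ h → ∀ t ∈ T, P t h := by
  have h1 : ∀ᶠ h in Filter.atTop, ∀ t ∈ T, P t h := by
    rw [Filter.eventually_all_finset]
    intro t ht
    exact Filter.eventually_atTop.2 (h t ht)
  exact Filter.eventually_atTop.1 h1

lemma aJ_nonneg (a r M τ m h : ℕ) : 0 ≤ aJ a r M τ m h := PB_nonneg _ _ _

lemma aJ_le_one (a r M τ m h : ℕ) : aJ a r M τ m h ≤ 1 := PB_le_one _ _ _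

lemma fin_arith {c s₀ NT CJ C1 x ε y1 y2 y3 : ℝ} {j : ℕ} (hs0 : 0 < s₀) (hs1 : s₀ ≤ 1)
    (hNT0 : 0 ≤ NT) (hx0 : 0 < x) (hs₀ : s₀ = (1 / 4 : ℝ) ^ (1 + c))
    (hx : x = (1 / 4 : ℝ) ^ (j + 1)) (hC1 : C1 = 2 * (NT * |CJ| * 2 ^ (1 + c)) + 1) (hε : 0 < ε)
    (f1 : y1 ≤ NT * (CJ * (2 * x) ^ (1 + c) + ε / (2 * (NT + 1)))) (q1 : y2 ≤ s₀ / 2)
    (q2 : y3 ≤ C1 * s₀ ^ j + ε) (q4 : 0 ≤ y3) :
    y1 + y2 * y3 ≤ C1 * s₀ ^ (j + 1) + ε := by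
  have f2 : y2 * y3 ≤ s₀ / 2 * (C1 * s₀ ^ j + ε) :=
    mul_le_mul q1 q2 q4 (by positivity)
  have f3 : (2 * x : ℝ) ^ (1 + c) = 2 ^ (1 + c) * s₀ ^ (j + 1) := by
    rw [Real.mul_rpow (by norm_num) hx0.le, hx, hs₀, Real.rpow_pow_comm (by norm_num)]
  rw [f3] at f1
  have hp : (0 : ℝ) < s₀ ^ (j + 1) := by positivity
  have hp2 : (0 : ℝ) < (2 : ℝ) ^ (1 + c) := by positivity
  have f6 : s₀ / 2 * (C1 * s₀ ^ j + ε) = C1 / 2 * s₀ ^ (j + 1) + s₀ * (ε / 2) := by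
    rw [pow_succ]; ring
  have f6' : s₀ * (ε / 2) ≤ 1 * (ε / 2) := mul_le_mul_of_nonneg_right hs1 (by positivity)
  have f4 : NT * (ε / (2 * (NT + 1))) ≤ ε / 2 := by
    rw [mul_div_assoc', div_le_div_iff₀ (by positivity) (by positivity)]
    have : 0 ≤ ε * NT := by positivity
    linarith
  have f5 : NT * (CJ * (2 ^ (1 + c) * s₀ ^ (j + 1))) ≤ NT * |CJ| * 2 ^ (1 + c) * s₀ ^ (j + 1) := by
    have : CJ * (2 ^ (1 + c) * s₀ ^ (j + 1)) ≤ |CJ| * (2 ^ (1 + c) * s₀ ^ (j + 1)) :=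
      mul_le_mul_of_nonneg_right (le_abs_self _) (by positivity)
    calc NT * (CJ * (2 ^ (1 + c) * s₀ ^ (j + 1))) ≤ NT * (|CJ| * (2 ^ (1 + c) * s₀ ^ (j + 1))) :=
          mul_le_mul_of_nonneg_left this hNT0
      _ = _ := by ring
  have f7 : NT * |CJ| * 2 ^ (1 + c) * s₀ ^ (j + 1) + C1 / 2 * s₀ ^ (j + 1) ≤
      C1 * s₀ ^ (j + 1) := by
    rw [hC1]
    linarith
  rw [mul_add] at f1
  linarith

/-- **The recursion.** -/
theorem rec_all {c : ℝ} (hc : 0 < c) (hJB : JB c) {C0 : ℕ} {C c' : ℝ} (hc' : 0 < c')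
    (hRS : RS C0 C c') (hland : Landing) :
    ∃ (L : ℕ) (C1 : ℝ), 0 < L ∧ ∀ (j : ℕ) (ε : ℝ), 0 < ε → ∃ δ > (0 : ℝ), ∀ M τ m : ℕ,
      0 < M → 0 < τ → (M : ℝ) ≤ δ * ((m * M * 4 ^ j : ℕ) : ℝ) →
      64 * ((τ : ℝ) + ((m * M * 4 ^ j : ℕ) : ℝ) / (δ * M)) ≤ M → ∃ h0 : ℕ, ∀ h : ℕ, h0 ≤ h →
        aJ (L * (m * M * 4 ^ j)) (m * M * 4 ^ j) M τ m h ≤ C1 * ((1 / 4 : ℝ) ^ (1 + c)) ^ j + ε := by
  obtain ⟨s₀, hs₀⟩ : ∃ s₀ : ℝ, s₀ = (1 / 4 : ℝ) ^ (1 + c) := ⟨_, rfl⟩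
  have hs0 : 0 < s₀ := by rw [hs₀]; positivity
  have hs1 : s₀ ≤ 1 := by
    rw [hs₀]
    exact Real.rpow_le_one (by norm_num) (by norm_num) (by linarith)
  obtain ⟨L, g, hL, hg, δb, hδb, hbad⟩ := bad_bound hc' hRS (show 0 < s₀ / 2 by positivity)
  obtain ⟨CJ, hCJ⟩ := hJB L (2 * g) (by omega) (by omega)
  obtain ⟨NT, hNT⟩ : ∃ NT : ℝ, NT = ((Tg L g).card : ℝ) := ⟨_, rfl⟩
  have hNT0 : 0 ≤ NT := by rw [hNT]; positivity
  obtain ⟨C1, hC1⟩ : ∃ C1 : ℝ, C1 = 2 * (NT * |CJ| * 2 ^ (1 + c)) + 1 := ⟨_, rfl⟩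
  have hC10 : 0 ≤ NT * |CJ| * 2 ^ (1 + c) := by positivity
  refine ⟨L, C1, by omega, ?_⟩
  rw [← hs₀]
  intro j
  induction j with
  | zero =>
    intro ε hε
    refine ⟨1, one_pos, fun M τ m _ _ _ _ => ⟨0, fun h _ => ?_⟩⟩
    have := aJ_le_one (L * (m * M * 4 ^ 0)) (m * M * 4 ^ 0) M τ m h
    simp only [pow_zero, mul_one] at this ⊢
    rw [hC1]
    linarith
  | succ j ih =>
    intro ε hε
    obtain ⟨δ1, hδ1, ih1⟩ := ih ε hε
    obtain ⟨x, hx⟩ : ∃ x : ℝ, x = (1 / 4 : ℝ) ^ (j + 1) := ⟨_, rfl⟩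
    have hx0 : 0 < x := by rw [hx]; positivity
    have hx4 : x ≤ 1 / 4 := by
      rw [hx, pow_succ]
      have : (1 / 4 : ℝ) ^ j ≤ 1 := pow_le_one₀ (by norm_num) (by norm_num)
      linarith
    obtain ⟨δ2, hδ2, hJ⟩ := hCJ (2 * x) (by positivity) (by linarith) (ε / (2 * (NT + 1)))
      (by positivity)
    obtain ⟨δ4, hδ4⟩ : ∃ δ4 : ℝ, δ4 = min δ2 (min δb (min (1 / (8 * g : ℕ)) (1 / (8 * L : ℕ)))) :=
      ⟨_, rfl⟩
    have hg8 : (0 : ℝ) < ((8 * g : ℕ) : ℝ) := by exact_mod_cast (by omega : 0 < 8 * g)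
    have hL8 : (0 : ℝ) < ((8 * L : ℕ) : ℝ) := by exact_mod_cast (by omega : 0 < 8 * L)
    have hδ40 : 0 < δ4 := by
      rw [hδ4]
      refine lt_min hδ2 (lt_min hδb (lt_min ?_ ?_)) <;> positivity
    have a1 : δ4 ≤ δ2 := by rw [hδ4]; exact min_le_left _ _
    have a2 : δ4 ≤ δb := by rw [hδ4]; exact (min_le_right _ _).trans (min_le_left _ _)
    have a3 : δ4 ≤ 1 / (8 * g : ℕ) := by
      rw [hδ4]
      exact (min_le_right _ _).trans ((min_le_right _ _).trans (min_le_left _ _))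
    have a4 : δ4 ≤ 1 / (8 * L : ℕ) := by
      rw [hδ4]
      exact (min_le_right _ _).trans ((min_le_right _ _).trans (min_le_right _ _))
    obtain ⟨δ', hδ', hbox⟩ := exists_box δ4 hδ40
    obtain ⟨δ, hδ⟩ : ∃ δ : ℝ, δ = min δ1 δ' / 4 := ⟨_, rfl⟩
    have hδ0 : 0 < δ := by rw [hδ]; have := lt_min hδ1 hδ'; positivity
    have b1 : 4 * δ ≤ δ1 := by rw [hδ]; linarith [min_le_left δ1 δ']
    have b2 : 4 * δ ≤ δ' := by rw [hδ]; linarith [min_le_right δ1 δ']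
    refine ⟨δ, hδ0, fun M τ m hM hτ h1 h2 => ?_⟩
    obtain ⟨s, hs⟩ : ∃ s : ℕ, s = m * M * 4 ^ j := ⟨_, rfl⟩
    have hs4 : m * M * 4 ^ (j + 1) = 4 * s := by rw [hs, pow_succ]; ring
    rw [hs4] at h1 h2 ⊢
    have hM0 : (0 : ℝ) < M := by exact_mod_cast hM
    have hS0 : (0 : ℝ) ≤ (s : ℝ) := Nat.cast_nonneg _
    have hτ0 : (0 : ℝ) ≤ (τ : ℝ) := Nat.cast_nonneg _
    push_cast at h1 h2
    -- conditions at the smaller scale
    have c1 : (M : ℝ) ≤ δ1 * s := by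
      have g1 : 4 * δ * s ≤ δ1 * s := mul_le_mul_of_nonneg_right b1 hS0
      linarith
    have e1 : (s : ℝ) / (δ1 * M) ≤ 4 * s / (δ * M) := by
      rw [div_le_div_iff₀ (by positivity) (by positivity)]
      have : δ ≤ 4 * δ1 := by linarith
      nlinarith [mul_nonneg hS0 hM0.le]
    have c2 : 64 * ((τ : ℝ) + s / (δ1 * M)) ≤ M := by linarith
    obtain ⟨h3, hh3⟩ := ih1 M τ m hM hτ (by rw [← hs]; exact c1) (by rw [← hs]; exact c2)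
    rw [← hs] at hh3
    -- the box
    have e2 : ((2 * s : ℕ) : ℝ) / (δ' * M) ≤ 4 * s / (δ * M) := by
      push_cast
      rw [div_le_div_iff₀ (by positivity) (by positivity)]
      have : δ ≤ 2 * δ' := by linarith
      nlinarith [mul_nonneg hS0 hM0.le]
    have e3 : (0 : ℝ) ≤ 4 * s / (δ * M) := by positivity
    have c3 : (M : ℝ) ≤ δ' * ((2 * s : ℕ) : ℝ) := by
      have g1 : 4 * δ * s ≤ δ' * s := mul_le_mul_of_nonneg_right b2 hS0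
      have g2 : 0 ≤ δ' * s := mul_nonneg hδ'.le hS0
      push_cast
      linarith
    have c4 : 64 * ((τ : ℝ) + ((2 * s : ℕ) : ℝ) / (δ' * M)) ≤ M := by linarith
    have c5 : ((m : ℝ) * M) = 2 * x * ((2 * s : ℕ) : ℝ) := by
      rw [hx, hs, pow_succ]
      push_cast
      have g3 : (1 / 4 : ℝ) ^ j * 4 ^ j = 1 := by rw [← mul_pow]; norm_num
      calc (m : ℝ) * M = m * M * ((1 / 4 : ℝ) ^ j * 4 ^ j) := by rw [g3, mul_one]
        _ = _ := by ring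
    obtain ⟨b, hb, hbH, hbM, hbτ, hbm⟩ := hbox (2 * s) M τ m (2 * x) hM hτ c3 c4 c5
    subst hbM hbτ hbm
    have S : St b δ4 (2 * x) L s :=
      ⟨hb, hbH, by rw [hs]; exact Dvd.intro_left _ (by ring : b.m * 4 ^ j * b.M = b.m * b.M * 4 ^ j),
        hL, a4, by linarith⟩
    obtain ⟨h5, hh5⟩ := hbad b δ4 (2 * x) a2 hb
    have hb2 : b.Ok δ2 (2 * x) := Pool.Agent.H89.W.Ok_mono hb a1
    obtain ⟨h6, hh6⟩ := common (Tg L g) (P := fun t h => b.PJ h (b.AllPiv h L (2 * g) t.1 t.2.1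
      t.2.2.1 t.2.2.2.1 t.2.2.2.2) ≤ CJ * (2 * x) ^ (1 + c) + ε / (2 * (NT + 1))) (fun t ht => by
        obtain ⟨t1, t2, t3, t4⟩ := of_mem_Tg ht
        exact hJ b hb2 t.1 t.2.1 t.2.2.1 t.2.2.2.1 t.2.2.2.2 t1 t2 t3 t4)
    refine ⟨max (max h3 h5) (max h6 1), fun h hh => ?_⟩
    have hh1 : 0 < h := by omega
    have key := step hland S hg a3 hh1
    have q1 := hh5 h (by omega)
    have q2 := hh3 h (by omega)
    have q3 := hh6 h (by omega)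
    have q4 := aJ_nonneg (L * s) s b.M b.τ b.m h
    have f1 : ∑ t ∈ Tg L g, b.PJ h (b.AllPiv h L (2 * g) t.1 t.2.1 t.2.2.1 t.2.2.2.1 t.2.2.2.2) ≤
        NT * (CJ * (2 * x) ^ (1 + c) + ε / (2 * (NT + 1))) := by
      have := sum_le_card_nsmul (Tg L g) _ _ q3
      rw [nsmul_eq_mul, ← hNT] at this
      exact this
    generalize ∑ t ∈ Tg L g, b.PJ h (b.AllPiv h L (2 * g) t.1 t.2.1 t.2.2.1 t.2.2.2.1 t.2.2.2.2) =
      y1 at key f1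
    generalize b.PJ h (Bad b L g h) = y2 at key q1
    generalize aJ (L * s) s b.M b.τ b.m h = y3 at key q2 q4
    refine key.trans ?_
    clear key q3 hh3 hh5 hh6 S hb hb2 hland hRS hJB hCJ hJ hbad hbox ih ih1
    exact fin_arith hs0 hs1 hNT0 hx0 (by rw [hs₀]) hx hC1 hε f1 q1 q2 q4

/-- **E6.** -/
theorem locB {c : ℝ} (hc : 0 < c) (hJB : JB c) {C0 : ℕ} {C c' : ℝ} (hc' : 0 < c')
    (hRS : RS C0 C c') (hland : Landing) : LocB := by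
  obtain ⟨L, C1, hL, hrec⟩ := rec_all hc hJB hc' hRS hland
  refine ⟨c, C1, L, hc, hL, fun K ε hε => ?_⟩
  obtain ⟨δ, hδ, h1⟩ := hrec K ε hε
  refine ⟨δ, hδ, fun r M τ m hM hτ h2 h3 hr => ?_⟩
  subst hr
  obtain ⟨h0, hh0⟩ := h1 M τ m hM hτ h2 h3
  refine ⟨h0, fun h hh => ?_⟩
  have e : ((1 / 4 : ℝ) ^ (1 + c)) ^ K = (4 : ℝ) ^ (-((K : ℝ) * (1 + c))) := by
    rw [← Real.rpow_natCast, ← Real.rpow_mul (by norm_num), one_div, Real.inv_rpow (by norm_num),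
      ← Real.rpow_neg (by norm_num), mul_comm (K : ℝ)]
  rw [← e]
  exact hh0 h hh

end Pool.Agent.H24.W
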