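import Mathlib
import Pool.Agent.H24.W.Rec3

set_option autoImplicit false
open Finset

/-! # Route W, module E6: from the strong form of the landing lemma (E3) to `E6` -/

namespace Pool.Agent.H24.W

open Pool.Agent.H75.Perc hiding WL CT hh PB
open Pool.Agent.H75.TwoArm Pool.Agent.H75.Four Pool.Agent.H69.Q1 Pool.Agent.Q1
open Pool.Agent.H33.Q1
open Pool.Agent.Q1.M4 (Cell)
open Pool.Agent.H58.W Pool.Agent.H50.W Pool.Agent.H6.W Pool.Agent.H65.W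
open Pool.Agent.H87.Corr (CrL)
open Pool.Agent.H41.W (A4 A4_inter)

/-- **Landing, strong form**: everything is read in the wide box. -/
def LandingS : Prop :=
  ∀ (b : JBox) (δ σ : ℝ) (L g h : ℕ) (ω : Finset (ℤ × ℤ)), b.Ok δ σ → σ ≤ 1 → 11 ≤ g →
    δ ≤ 1 / (8 * g : ℕ) → δ ≤ 1 / (8 * L : ℕ) → 4 ≤ L → 0 < h → ω ⊆ WE b L h →
    A4 (WE b L h) (b.Pl h) ω →
    (∃ (w : Bool) (t1 t2 t3 t4 : ℕ), (t1 + 2 ≤ t2 ∧ t2 + 2 ≤ t3 ∧ t3 + 2 ≤ t4 ∧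
      t4 < 4 * L * (2 * g)) ∧ ∀ η : Finset (ℤ × ℤ), η ∩ WE b L h = ω →
        b.AllPiv h L (2 * g) w t1 t2 t3 t4 η) ∨
    (BadO b.H b.K L g h (WE b L h) ω ∨ BadD b.H b.K L g h (WE b L h) ω) ∨
    (CorO b.H L h (WE b L h) ω ∨ CorD b.H L h (WE b L h) ω) ∨
    CrL (lα L b.H h) (lβ L b.H h) ω ∨ CrL (lα L b.H h) (lβ L b.H h) (du (WE b L h) ω)

theorem landing_of_strong (hS : LandingS) : Landing := by
  intro b δ σ L g h ω hb hσ hg hdg hdL hL hh hω hA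
  have hEB : WE b L h ⊆ b.B h := WE_sub hh
  have h1 := hS b δ σ L g h (ω ∩ WE b L h) hb hσ hg hdg hdL hL hh inter_subset_right
    (A4_inter.2 hA)
  rcases h1 with ⟨w, t1, t2, t3, t4, ht, h1⟩ | (h1 | h1) | (h1 | h1) | h1 | h1
  · exact Or.inl ⟨w, t1, t2, t3, t4, ht, h1 ω rfl⟩
  · exact Or.inr (Or.inl (Or.inl h1))
  · exact Or.inr (Or.inl (Or.inr ((BadD_inter Hi_sub).2 h1)))
  · exact Or.inr (Or.inr (Or.inl (Or.inl ((CorO_inter Rt_sub).2 h1))))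
  · exact Or.inr (Or.inr (Or.inl (Or.inr ((CorD_inter Rt_sub).2 h1))))
  · exact Or.inr (Or.inr (Or.inr (Or.inl (h1.mono
      (inter_subset_inter_left hEB) le_rfl le_rfl))))
  · refine Or.inr (Or.inr (Or.inr (Or.inr (h1.mono ?_ le_rfl le_rfl))))
    intro l hl
    obtain ⟨e, h5, h6, rfl⟩ := mem_du'.1 hl
    exact mem_du'.2 ⟨e, hEB h5, fun h7 => h6 (mem_inter.2 ⟨h7, h5⟩), rfl⟩

/-- **E6** (6's Prop `E6`), from the landing lemma. -/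
theorem e6 (hland : Landing) : ∀ (c : ℝ), 0 < c → JB c → ∀ (C0 : ℕ) (C c' : ℝ), 0 < c' →
    RS C0 C c' → LocB := fun _ hc hJB _ _ _ hc' hRS => locB hc hJB hc' hRS hland

end Pool.Agent.H24.W
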