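import Mathlib
import Pool.Agent.H24.W.Land
import Pool.Agent.H41.W.LandBox
import Pool.Agent.H67.W.RSfin

set_option autoImplicit false
open Finset

/-! # Route W, module E6, final form: `JB c → LocB` -/

namespace Pool.Agent.H24.W

open Pool.Agent.H75.Perc hiding WL CT hh PB
open Pool.Agent.H75.TwoArm Pool.Agent.H75.Four Pool.Agent.H69.Q1 Pool.Agent.Q1
open Pool.Agent.H33.Q1
open Pool.Agent.Q1.M4 (Cell)
open Pool.Agent.H58.W Pool.Agent.H50.W Pool.Agent.H6.W Pool.Agent.H65.W

/-- **E3 in the form used by the recursion.** -/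
theorem landingS : LandingS := by
  intro b δ σ L g h ω hb hσ hg hdg hdL hL hh hω hA
  have h4 : δ ≤ 1 / (4 * (L : ℝ)) := by
    refine hdL.trans (one_div_le_one_div_of_le ?_ ?_)
    · have : (0 : ℝ) < L := by exact_mod_cast (by omega : 0 < L)
      positivity
    · push_cast
      have : (0 : ℝ) ≤ L := Nat.cast_nonneg _
      linarith
  rcases Pool.Agent.H41.W.landing_box hb hσ hg (by omega) hdg h4 hh hω hA with
    ⟨w, t1, t2, t3, t4, k1, k2, k3, k4, k5⟩ | h1
  · exact Or.inl ⟨w, t1, t2, t3, t4, ⟨k1, k2, k3, k4⟩, k5⟩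
  · exact Or.inr h1

theorem landing : Landing := landing_of_strong landingS

/-- **E6** (6's Prop `E6`, written out). -/
theorem e6' : ∀ (c : ℝ), 0 < c → JB c → ∀ (C0 : ℕ) (C c' : ℝ), 0 < c' →
    RS C0 C c' → LocB := e6 landing

/-- **W-E in one line**: the junction bound gives the local bound. -/
theorem locB_of_JB {c : ℝ} (hc : 0 < c) (hJB : JB c) : LocB := by
  obtain ⟨C0, C, c', hc', hRS⟩ := Pool.Agent.H67.W.rs_E10
  exact locB hc hJB hc' hRS landing

end Pool.Agent.H24.W
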